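import Pool.Agent.H752.PL.Stubs2

/-! Project PL, task L13: numbers. -/

namespace Pool.Agent.H752.PL

open Pool.Agent.NPC Pool.Agent.H620R2.Gauge Finset H568R2 Pool.Agent.H752.GE Filter

namespace Asy2

theorem eval_le (q : Polynomial ℕ) {x : ℕ} (hx : 1 ≤ x) :
    q.eval x ≤ q.eval 1 * x ^ q.natDegree := by
  rw [Polynomial.eval_eq_sum_range, Polynomial.eval_eq_sum_range, Finset.sum_mul]
  refine Finset.sum_le_sum fun i hi => ?_
  rw [one_pow, mul_one]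
  exact Nat.mul_le_mul_left _ (Nat.pow_le_pow_right hx
    (Nat.lt_succ_iff.1 (Finset.mem_range.1 hi)))

/-- the exponent of the length -/
def Lk (k : ℕ) : ℕ := 2 ^ ((k + 2) ^ 2) + 2 ^ (k + 1) + 4

theorem Lk_succ_le (k : ℕ) : Lk (k + 1) ≤ 2 ^ ((k + 4) ^ 2) := by
  unfold Lk
  have h1 : 2 ^ (k + 1 + 1) ≤ 2 ^ ((k + 3) ^ 2) :=
    Nat.pow_le_pow_right (by norm_num) (by nlinarith)
  have h2 : 4 ≤ 2 ^ ((k + 3) ^ 2) := by
    calc 4 = 2 ^ 2 := by norm_num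
      _ ≤ _ := Nat.pow_le_pow_right (by norm_num) (by
        calc 2 ≤ 3 ^ 2 := by norm_num
          _ ≤ (k + 3) ^ 2 := Nat.pow_le_pow_left (by omega) 2)
  have h3 : 2 ^ ((k + 3) ^ 2) * 4 ≤ 2 ^ ((k + 4) ^ 2) := by
    calc 2 ^ ((k + 3) ^ 2) * 4 = 2 ^ ((k + 3) ^ 2 + 2) := by rw [pow_add]; norm_num
      _ ≤ _ := Nat.pow_le_pow_right (by norm_num) (by
        have e : (k + 4) ^ 2 = (k + 3) ^ 2 + (2 * k + 7) := by ring
        rw [e]
        exact Nat.add_le_add_left (by omega) _)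
  have h4 : (k + 1 + 2) = k + 3 := by ring
  rw [h4]
  omega

theorem lt_Lk (k : ℕ) : k < Lk k := by
  unfold Lk
  have h : k + 1 < 2 ^ (k + 1) := Nat.lt_two_pow_self
  calc k < 2 ^ (k + 1) := lt_trans (Nat.lt_succ_self k) h
    _ ≤ 2 ^ ((k + 2) ^ 2) + 2 ^ (k + 1) := Nat.le_add_left _ _
    _ ≤ _ := Nat.le_add_right _ _

end Asy2

theorem t_asy2 : St_asy2 := by
  classical
  intro f hf q δ hδ
  obtain ⟨K, hK⟩ := exists_pow_lt_of_lt_one hδ (by norm_num : (1 / 2 : ℝ) < 1)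
  set k₀ : ℕ := K + q.eval 1 + q.natDegree + 3 with hk₀
  have hfr := hf (1 / 4) (by norm_num)
  obtain ⟨N, hN, hfN⟩ := (Filter.frequently_atTop.1 hfr) (2 ^ Asy2.Lk k₀)
  set k := Nat.findGreatest (fun k => 2 ^ Asy2.Lk k ≤ N) N with hk
  have hk₀N : k₀ ≤ N := by
    have h1 := Asy2.lt_Lk k₀
    have h2 : Asy2.Lk k₀ < 2 ^ Asy2.Lk k₀ := Nat.lt_two_pow_self
    omega
  have hkk : k₀ ≤ k := Nat.le_findGreatest hk₀N hN
  have hP : 2 ^ Asy2.Lk k ≤ N :=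
    Nat.findGreatest_spec (P := fun k => 2 ^ Asy2.Lk k ≤ N) hk₀N hN
  have hP' : N < 2 ^ Asy2.Lk (k + 1) := by
    by_contra h
    push Not at h
    have h1 : k + 1 ≤ N := by
      have h1 := Asy2.lt_Lk (k + 1)
      have h2 : Asy2.Lk (k + 1) < 2 ^ Asy2.Lk (k + 1) := Nat.lt_two_pow_self
      omega
    have h2 : k + 1 ≤ Nat.findGreatest (fun k => 2 ^ Asy2.Lk k ≤ N) N := Nat.le_findGreatest h1 h
    omega
  -- the iterated logarithm
  have hN2 : 2 ≤ N := by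
    have h1 := Asy2.lt_Lk k
    calc 2 = 2 ^ 1 := by norm_num
      _ ≤ 2 ^ Asy2.Lk k := Nat.pow_le_pow_right (by norm_num) (by omega)
      _ ≤ N := hP
  have hNR : (2 : ℝ) ≤ N := by exact_mod_cast hN2
  have hx1 : 1 ≤ Real.logb 2 N := by
    rw [Real.le_logb_iff_rpow_le (by norm_num) (by linarith)]
    rw [Real.rpow_one]
    exact hNR
  have hx2 : Real.logb 2 N ≤ 2 ^ ((k + 4) ^ 2) := by
    have h1 : (N : ℝ) ≤ (2 : ℝ) ^ (Asy2.Lk (k + 1)) := by exact_mod_cast hP'.le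
    have h2 : Real.logb 2 N ≤ Asy2.Lk (k + 1) := by
      rw [Real.logb_le_iff_le_rpow (by norm_num) (by linarith), Real.rpow_natCast]
      exact h1
    refine h2.trans ?_
    exact_mod_cast Asy2.Lk_succ_le k
  have hy0 : 0 ≤ Real.logb 2 (Real.logb 2 N) := Real.logb_nonneg (by norm_num) hx1
  have hy1 : Real.logb 2 (Real.logb 2 N) ≤ ((k : ℝ)) ^ 4 := by
    have h1 : Real.logb 2 (Real.logb 2 N) ≤ ((k + 4) ^ 2 : ℕ) := by
      rw [Real.logb_le_iff_le_rpow (by norm_num) (by linarith), Real.rpow_natCast]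
      exact_mod_cast hx2
    refine h1.trans ?_
    have hk3 : 3 ≤ k := by omega
    have h2 : (k + 4) ^ 2 ≤ k ^ 4 := by
      have h3 : k + 4 ≤ k ^ 2 := by nlinarith
      calc (k + 4) ^ 2 ≤ (k ^ 2) ^ 2 := Nat.pow_le_pow_left h3 2
        _ = k ^ 4 := by ring
    exact_mod_cast h2
  have hz : (Real.logb 2 (Real.logb 2 N)) ^ (1 / 4 : ℝ) ≤ k := by
    refine (Real.rpow_le_rpow hy0 hy1 (by norm_num)).trans ?_
    have := Real.pow_rpow_inv_natCast (x := (k : ℝ)) (n := 4) (by positivity) (by norm_num)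
    have e : (1 / 4 : ℝ) = ((4 : ℕ) : ℝ)⁻¹ := by norm_num
    rw [e, this]
  set T : ℕ := 2 ^ 2 ^ k with hT
  have hfT : f N ≤ T := by
    refine hfN.trans ?_
    have h1 : (2 : ℝ) ^ (Real.logb 2 (Real.logb 2 N)) ^ (1 / 4 : ℝ) ≤ (2 : ℝ) ^ k := by
      rw [← Real.rpow_natCast]
      exact Real.rpow_le_rpow_of_exponent_le (by norm_num) hz
    calc (2 : ℝ) ^ (2 : ℝ) ^ (Real.logb 2 (Real.logb 2 N)) ^ (1 / 4 : ℝ)
        ≤ (2 : ℝ) ^ ((2 : ℝ) ^ k) := Real.rpow_le_rpow_of_exponent_le (by norm_num) h1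
      _ = (T : ℝ) := by
        have e : ((2 : ℝ) ^ k) = ((2 ^ k : ℕ) : ℝ) := by push_cast; rfl
        rw [e, Real.rpow_natCast, hT]
        push_cast
        rfl
  refine ⟨2 ^ (k + 1), N, Nat.one_le_two_pow, ?_, ?_, ?_⟩
  · rw [Nat.log_pow (by norm_num)]
    have h1 := Asy2.eval_le q (x := 2 ^ (k + 1)) Nat.one_le_two_pow
    have h2 : q.eval 1 + 1 ≤ 2 ^ (k + 1) := by
      have : k + 1 < 2 ^ (k + 1) := Nat.lt_two_pow_self
      omega
    have h3 : 1 ≤ (2 ^ (k + 1)) ^ q.natDegree := Nat.one_le_pow _ _ (by positivity)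
    calc q.eval (2 ^ (k + 1)) + 1
        ≤ q.eval 1 * (2 ^ (k + 1)) ^ q.natDegree + 1 * (2 ^ (k + 1)) ^ q.natDegree := by
          rw [one_mul]; exact Nat.add_le_add h1 h3
      _ = (q.eval 1 + 1) * (2 ^ (k + 1)) ^ q.natDegree := by ring
      _ ≤ 2 ^ (k + 1) * (2 ^ (k + 1)) ^ q.natDegree := Nat.mul_le_mul_right _ h2
      _ = 2 ^ ((k + 1) * (q.natDegree + 1)) := by rw [pow_mul, pow_succ]; ring
      _ ≤ 2 ^ ((k + 1 + 1) ^ 2) := Nat.pow_le_pow_right (by norm_num) (by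
          have : q.natDegree + 1 ≤ k + 1 := by omega
          nlinarith)
  · rw [Nat.log_pow (by norm_num)]
    exact hP
  · have hT2 : 2 ≤ T := by
      rw [hT]
      calc 2 = 2 ^ 1 := by norm_num
        _ ≤ _ := Nat.pow_le_pow_right (by norm_num) Nat.one_le_two_pow
    have hn : (2 : ℕ) ^ (2 ^ (k + 1)) = (T * T - T) + T := by
      have h1 : (2 : ℕ) ^ (2 ^ (k + 1)) = T * T := by
        rw [hT, ← pow_add, pow_succ]
        congr 1
        ring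
      rw [h1]
      have : T ≤ T * T := Nat.le_mul_self T
      omega
    have hTK : K ≤ T * T - T := by
      have h1 : k < 2 ^ k := Nat.lt_two_pow_self
      have h2 : 2 ^ k < 2 ^ 2 ^ k := Nat.lt_two_pow_self
      have h3 : T * 2 ≤ T * T := Nat.mul_le_mul_left _ hT2
      have h4 : K ≤ T := by omega
      omega
    rw [hn, pow_add, mul_assoc]
    have h5 : (1 / 2 : ℝ) ^ T * 2 ^ f N ≤ 1 := by
      calc (1 / 2 : ℝ) ^ T * 2 ^ f N ≤ (1 / 2 : ℝ) ^ T * 2 ^ (T : ℝ) :=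
            mul_le_mul_of_nonneg_left (Real.rpow_le_rpow_of_exponent_le (by norm_num) hfT)
              (by positivity)
        _ = 1 := by
          rw [Real.rpow_natCast, ← mul_pow]
          norm_num
    calc (1 / 2 : ℝ) ^ (T * T - T) * ((1 / 2 : ℝ) ^ T * 2 ^ f N)
        ≤ (1 / 2 : ℝ) ^ (T * T - T) * 1 := mul_le_mul_of_nonneg_left h5 (by positivity)
      _ = (1 / 2 : ℝ) ^ (T * T - T) := mul_one _
      _ ≤ (1 / 2 : ℝ) ^ K := pow_le_pow_of_le_one (by norm_num) (by norm_num) hTK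
      _ ≤ δ := hK.le

end Pool.Agent.H752.PL
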